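import Pool.Agent.Lev.All2

set_option autoImplicit false

/-!
A semigroup of rational functions of degree at least two with a non-special element is right
reversible iff all pairs `A, B` of its elements satisfy `A^(2k) = A^k ∘ B^l, B^(2l) = B^l ∘ A^k` for
some `k, l ≥ 1`.
-/

namespace Pool.Agent.Results.MP_78b16e_an.ReversibleIffR

open Filter Topology

/-- the composition `f ∘ g` of rational functions -/
noncomputable def comp (f g : RatFunc ℂ) : RatFunc ℂ :=
  Polynomial.aeval g f.num / Polynomial.aeval g f.denom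

/-- the degree of a rational function -/
noncomputable def deg (f : RatFunc ℂ) : ℕ := max f.num.natDegree f.denom.natDegree

/-- the `n`-th compositional iterate, `iter P 0 = z` -/
noncomputable def iter (P : RatFunc ℂ) (n : ℕ) : RatFunc ℂ := (comp P)^[n] RatFunc.X

/-- `f` is a Lattès map: there are a lattice `ℤω₁ + ℤω₂`, an affine map `z ↦ a z + b` with
`a ω₁, a ω₂` in the lattice and a nonconstant meromorphic function `θ` with periods `ω₁, ω₂` such
that `f (θ z) = θ (a z + b)` -/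
def Lattes (f : RatFunc ℂ) : Prop :=
  ∃ (ω₁ ω₂ a b : ℂ) (θ : ℂ → ℂ), LinearIndependent ℝ ![ω₁, ω₂] ∧
    (∃ m₁ n₁ m₂ n₂ : ℤ, a * ω₁ = (m₁ : ℂ) * ω₁ + (n₁ : ℂ) * ω₂ ∧
      a * ω₂ = (m₂ : ℂ) * ω₁ + (n₂ : ℂ) * ω₂) ∧
    MeromorphicOn θ Set.univ ∧
    (∀ z : ℂ, θ (z + ω₁) = θ z ∧ θ (z + ω₂) = θ z) ∧
    (∃ z : ℂ, DifferentiableAt ℂ θ z ∧ deriv θ z ≠ 0) ∧
    (∀ᶠ z in codiscrete ℂ, RatFunc.eval (RingHom.id ℂ) (θ z) f = θ (a * z + b))

/-- `f` is conjugate by a Möbius transformation `m` to `z ^ n`, `z ^ (-n)`, `T_n` or `-T_n` -/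
def PowerOrChebyshev (f : RatFunc ℂ) : Prop :=
  ∃ m : RatFunc ℂ, deg m = 1 ∧ ∃ n : ℕ,
    (comp m f = comp (RatFunc.X ^ n) m ∨ comp m f = comp (RatFunc.X ^ n)⁻¹ m ∨
      comp m f = comp (algebraMap (Polynomial ℂ) (RatFunc ℂ)
        (Polynomial.Chebyshev.T ℂ (n : ℤ))) m ∨
      comp m f = comp (-(algebraMap (Polynomial ℂ) (RatFunc ℂ)
        (Polynomial.Chebyshev.T ℂ (n : ℤ)))) m)

/-- special rational functions -/
def Special (f : RatFunc ℂ) : Prop := Lattes f ∨ PowerOrChebyshev f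

/-- `S` is right reversible: for all `A, B ∈ S` there are `X, Y ∈ S` with `X ∘ A = Y ∘ B` -/
def RightReversible (S : Set (RatFunc ℂ)) : Prop :=
  ∀ A ∈ S, ∀ B ∈ S, ∃ X ∈ S, ∃ Y ∈ S, comp X A = comp Y B

/-- condition (R) for all pairs: for all `A, B ∈ S` there are `k, l ≥ 1` with `A^(2k) = A^k ∘ B^l` and
`B^(2l) = B^l ∘ A^k` -/
def ConditionR (S : Set (RatFunc ℂ)) : Prop :=
  ∀ A ∈ S, ∀ B ∈ S, ∃ k l : ℕ, 1 ≤ k ∧ 1 ≤ l ∧
    iter A (2 * k) = comp (iter A k) (iter B l) ∧ iter B (2 * l) = comp (iter B l) (iter A k)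

/-- For a semigroup `S` of rational functions of degree at least two that contains a non-special
function, right reversibility is equivalent to condition (R) for all pairs `A, B ∈ S`. -/
theorem result (S : Set (RatFunc ℂ)) (hcomp : ∀ f ∈ S, ∀ g ∈ S, comp f g ∈ S)
    (hdeg : ∀ f ∈ S, 2 ≤ deg f) (hns : ∃ f ∈ S, ¬ Special f) :
    RightReversible S ↔ ConditionR S :=
  (Pool.Agent.Lev.t_t9c S hcomp hdeg hns).out 1 2

end Pool.Agent.Results.MP_78b16e_an.ReversibleIffR
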